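import Pool.Agent.BD82.D
import Pool.Graph.R_pool_sql_team_seeded_2aa45f1a.Q137.GL.All

/-!
# The non-differentiable set of an element of `Homeo¹(ℝ²)` can be residual

`f` is an infinite composition of maps `z ↦ (1 + c) z + c log(1 + 1/|z - p|) (z - p)` with summable
weights `c`, the `k`-th one centred at the present position of the `k`-th point of a given dense
sequence. Each factor changes the directions of chords by at most `2 c`, so the composition has a
projective derivative at every point (an invertible linear map which gives the asymptotic directions of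
the images of all chords near the point), and it preserves `C¹` curves in both directions. Its
difference quotients tend to infinity at every point of the sequence, hence they are unbounded near
every point of a dense `G_δ`.
-/

set_option autoImplicit false

open Filter Topology Set MeasureTheory
open scoped Manifold ContDiff

namespace Pool.Agent.Results.MP_bd3523_gt.ResidualNonDifferentiability

/-- A `C¹` curve in the surface `S` (modelled on `ℂ = ℝ²`): the image of an injective `C¹` map of the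
circle `ℝ/ℤ` with nowhere vanishing derivative. -/
def IsC1Curve (S : Type) [TopologicalSpace S] [ChartedSpace ℂ S] (C : Set S) : Prop :=
  ∃ γ : ℝ → S, ContMDiff 𝓘(ℝ, ℝ) 𝓘(ℝ, ℂ) 1 γ ∧ (∀ t, γ (t + 1) = γ t) ∧
    (∀ t, mfderiv 𝓘(ℝ, ℝ) 𝓘(ℝ, ℂ) γ t ≠ 0) ∧ InjOn γ (Ico 0 1) ∧ C = range γ

/-- `Homeo¹(S)`: the homeomorphisms `f` such that `f` and `f⁻¹` map every `C¹` curve onto a `C¹`
curve. -/
def Homeo1 (S : Type) [TopologicalSpace S] [ChartedSpace ℂ S] : Set (S ≃ₜ S) :=
  {f | (∀ C, IsC1Curve S C → IsC1Curve S (f '' C)) ∧ ∀ C, IsC1Curve S C → IsC1Curve S (f.symm '' C)}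

/-- The non-differentiable set of `f`. -/
def nonDiff {S : Type} [TopologicalSpace S] [ChartedSpace ℂ S] (f : S → S) : Set S :=
  {p | ¬ MDifferentiableAt 𝓘(ℝ, ℂ) 𝓘(ℝ, ℂ) f p}

theorem curve_iff (C : Set ℂ) : IsC1Curve ℂ C ↔ R789.C1.IsC1Curve C := by
  constructor
  · rintro ⟨γ, h1, h2, h3, h4, h5⟩
    exact ⟨γ, h1, h3, h2, h4, h5⟩
  · rintro ⟨γ, h1, h2, h3, h4, h5⟩
    exact ⟨γ, h1, h3, h2, h4, h5⟩

theorem mem (w : ℕ → ℂ) : BD82.homeo w ∈ Homeo1 ℂ := by
  have h := BD82.homeo_mem w
  constructor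
  · intro C hC
    exact (curve_iff _).2 (h.1 C ((curve_iff C).1 hC))
  · intro C hC
    exact (curve_iff _).2 (h.2 C ((curve_iff C).1 hC))

/-- (1) For every sequence of points of the plane there is `f ∈ Homeo¹(ℝ²)` whose difference quotients
tend to infinity at every point of the sequence.
(2) There is `f ∈ Homeo¹(ℝ²)` whose non-differentiable set is residual (its complement is meagre), so
that it meets every nonempty open set in an uncountable set; `f` is not even pointwise Lipschitz at the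
points of a residual set.
(3) On the other hand, for every smooth surface `S` and every `f ∈ Homeo¹(S)`, the non-differentiable
set has measure zero. -/
theorem result :
    (∀ w : ℕ → ℂ, ∃ f ∈ Homeo1 ℂ, ∀ n,
      Tendsto (fun z => ‖f z - f (w n)‖ / ‖z - w n‖) (𝓝[≠] (w n)) atTop) ∧
    (∃ f ∈ Homeo1 ℂ, nonDiff f ∈ residual ℂ ∧
      (∀ V : Set ℂ, IsOpen V → V.Nonempty → ¬ (V ∩ nonDiff f).Countable) ∧
      {z : ℂ | ∀ M δ : ℝ, 0 < δ → ∃ y, ‖y - z‖ < δ ∧ M * ‖y - z‖ < ‖f y - f z‖} ∈ residual ℂ) ∧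
    ∀ (S : Type) [TopologicalSpace S] [ChartedSpace ℂ S] [IsManifold 𝓘(ℝ, ℂ) ∞ S],
      ∀ f ∈ Homeo1 S, ∀ φ ∈ IsManifold.maximalAtlas 𝓘(ℝ, ℂ) ∞ S,
        volume (φ '' (φ.source ∩ nonDiff f)) = 0 := by
  refine ⟨fun w => ⟨BD82.homeo w, mem w, fun n => BD82.infinite_deriv w n⟩, ?_, ?_⟩
  · obtain ⟨w, hw⟩ := TopologicalSpace.exists_dense_seq ℂ
    have hset : nonDiff (BD82.homeo w) = {z | ¬ DifferentiableAt ℝ (BD82.FF w) z} := by
      ext z
      show (¬ MDifferentiableAt 𝓘(ℝ, ℂ) 𝓘(ℝ, ℂ) (BD82.FF w) z) ↔ _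
      rw [mdifferentiableAt_iff_differentiableAt]
      rfl
    have hres : nonDiff (BD82.homeo w) ∈ residual ℂ := by
      rw [hset]
      exact BD82.nonDiff_residual w hw
    refine ⟨BD82.homeo w, mem w, hres,
      fun V hV hne => BD82.uncountable_of_residual hres hV hne, ?_⟩
    have h1 : (⋂ N, BD82.UU w N) ∈ residual ℂ := by
      rw [countable_iInter_mem]
      intro N
      refine residual_of_dense_open (BD82.UU_open w N) ?_
      exact hw.mono (by rintro _ ⟨k, rfl⟩; exact BD82.mem_UU w N k)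
    refine mem_of_superset h1 fun z hz M δ hδ => ?_
    obtain ⟨N, hN⟩ := exists_nat_gt (max (1 / δ) M)
    obtain ⟨y, hy1, hy2⟩ := mem_iInter.1 hz N
    have hN1 : 1 / δ < (N : ℝ) := (le_max_left _ _).trans_lt hN
    have hN2 : M < (N : ℝ) := (le_max_right _ _).trans_lt hN
    refine ⟨y, hy1.trans ?_, lt_of_le_of_lt (mul_le_mul_of_nonneg_right hN2.le (norm_nonneg _)) hy2⟩
    rw [div_lt_iff₀ (by positivity)]
    rw [div_lt_iff₀ hδ] at hN1
    nlinarith
  · intro S _ _ _ f hf φ hφ
    exact Q137.GL.surfaceTheorem S f hf.1 φ hφ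

end Pool.Agent.Results.MP_bd3523_gt.ResidualNonDifferentiability
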